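import Pool.Agent.X265.IE.TwoGp

/-!
# Soluble and absolutely simple group-theoretic numbers: both sets are finite

For a 2-group `Q` of order `2 ^ a` the non-normal subgroups of `A₅ × Q` have exactly the
orders `κ * 2 ^ i` with `κ ∈ {2, 3, 4, 5, 6, 10, 12}`, `i ≤ a`, together with the orders
`m` and `60 * m`, where `m` runs over the orders of the non-normal subgroups of `Q`.
Taking for `Q` a cyclic group, a modular group, or a modular group times a group of
order two one gets `ie(A₅ × Q) = 3 a + 7`, `3 a + 8`, `3 a + 9`.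
-/

namespace Pool.Agent.Results.MP_927db0_al.FiniteSets

/-- `ie G`: the number of positive integers `n` such that `G` has a non-normal subgroup of
order `n`. -/
noncomputable def ie (G : Type) [Group G] : ℕ :=
  {n : ℕ | 0 < n ∧ ∃ H : Subgroup G, Nat.card H = n ∧ ¬ H.Normal}.ncard

/-- `k` is a soluble group-theoretic number: every finite group `G` with `ie G = k` is
soluble. -/
def SolubleNumber (k : ℕ) : Prop :=
  ∀ (G : Type) [Group G] [Finite G], ie G = k → Group.IsSolvable G

/-- `k` is an absolutely simple group-theoretic number: some finite simple group `G` has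
`ie G = k`, and no finite group that is both non-soluble and non-simple has `ie G = k`. -/
def AbsolutelySimpleNumber (k : ℕ) : Prop :=
  (∃ (G : Type) (_ : Group G), Finite G ∧ IsSimpleGroup G ∧ ie G = k) ∧
  ∀ (G : Type) [Group G] [Finite G], ¬ Group.IsSolvable G → ¬ IsSimpleGroup G → ie G ≠ k

open Pool.Agent.X265.IE

lemma ie_eq (G : Type) [Group G] [Finite G] : ie G = (NNorm G).ncard := by
  unfold ie NNorm
  congr 1
  ext n
  constructor
  · rintro ⟨-, h⟩; exact h
  · rintro ⟨H, rfl, h⟩
    exact ⟨Nat.card_pos, H, rfl, h⟩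

lemma prod_not_solvable (Q : Type) [Group Q] : ¬ Group.IsSolvable (A5 × Q) := by
  intro h
  apply not_solvable
  exact Group.isSolvable_of_surjective (f := MonoidHom.fst A5 Q) (fun a => ⟨(a, 1), rfl⟩)

lemma prod_not_simple (Q : Type) [Group Q] [Nontrivial Q] : ¬ IsSimpleGroup (A5 × Q) := by
  intro h
  obtain ⟨q, hq⟩ := exists_ne (1 : Q)
  rcases h.eq_bot_or_eq_top_of_normal (MonoidHom.fst A5 Q).ker inferInstance with h1 | h1
  · have : ((1 : A5), q) ∈ (MonoidHom.fst A5 Q).ker := rfl
    rw [h1, Subgroup.mem_bot] at this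
    exact hq (congrArg Prod.snd this)
  · have : ((c3 : A5), (1 : Q)) ∈ (MonoidHom.fst A5 Q).ker := by rw [h1]; trivial
    have h2 : c3 = 1 := this
    revert h2
    decide

/-- every `k ≥ 19` is attained by a finite group that is neither soluble nor simple -/
theorem exists_group (k : ℕ) (hk : 19 ≤ k) : ∃ (G : Type) (_ : Group G), Finite G ∧
    ¬ Group.IsSolvable G ∧ ¬ IsSimpleGroup G ∧ ie G = k := by
  have hmod : k % 3 < 3 := Nat.mod_lt _ (by norm_num)
  obtain h | h | h : k % 3 = 0 ∨ k % 3 = 1 ∨ k % 3 = 2 := by omega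
  · -- modular group times a group of order two
    obtain ⟨n, hn⟩ : ∃ n, k = 3 * n + 21 := ⟨(k - 21) / 3, by omega⟩
    have hR : Nat.card (Multiplicative (ZMod 2)) = 2 ^ 1 := by
      rw [Nat.card_eq_fintype_card]; rfl
    have hQ : Nat.card (PP n × Multiplicative (ZMod 2)) = 2 ^ (n + 4) := by
      rw [Nat.card_prod, PP.natCard, hR]; ring
    have : Nontrivial (PP n × Multiplicative (ZMod 2)) := by
      rw [← Finite.one_lt_card_iff_nontrivial, hQ]
      exact Nat.one_lt_two_pow (by omega)
    refine ⟨A5 × (PP n × Multiplicative (ZMod 2)), inferInstance, inferInstance,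
      prod_not_solvable _, prod_not_simple _, ?_⟩
    rw [ie_eq, ncard_eq hQ _ (NNorm_PP n 1 _ hR)]
    · rw [Finset.card_image_of_injective _ (Nat.pow_right_injective (le_refl 2)), Nat.card_Icc]
      omega
    · intro m hm
      simp only [Finset.mem_image, Finset.mem_Icc] at hm
      obtain ⟨i, ⟨h1, h2⟩, rfl⟩ := hm
      simp only [SS, Finset.mem_union, Finset.mem_image, Finset.mem_Icc]
      exact Or.inl (Or.inl ⟨i, ⟨h1, by omega⟩, rfl⟩)
  · -- cyclic group
    obtain ⟨a, ha⟩ : ∃ a, k = 3 * a + 7 := ⟨(k - 7) / 3, by omega⟩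
    have hQ : Nat.card (Multiplicative (ZMod (2 ^ a))) = 2 ^ a := by
      rw [Nat.card_congr Multiplicative.toAdd, Nat.card_zmod]
    have : NeZero (2 ^ a) := ⟨by positivity⟩
    have : Nontrivial (Multiplicative (ZMod (2 ^ a))) := by
      rw [← Finite.one_lt_card_iff_nontrivial, hQ]
      exact Nat.one_lt_two_pow (by omega)
    refine ⟨A5 × Multiplicative (ZMod (2 ^ a)), inferInstance, inferInstance,
      prod_not_solvable _, prod_not_simple _, ?_⟩
    rw [ie_eq, ncard_eq hQ _ (NNorm_comm _) (Finset.empty_subset _), Finset.card_empty]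
    omega
  · -- modular group
    obtain ⟨n, hn⟩ : ∃ n, k = 3 * n + 17 := ⟨(k - 17) / 3, by omega⟩
    have hR : Nat.card PUnit = 2 ^ 0 := by simp
    have hQ : Nat.card (PP n × PUnit) = 2 ^ (n + 3) := by
      rw [Nat.card_prod, PP.natCard, hR]; ring
    have : Nontrivial (PP n × PUnit) := by
      rw [← Finite.one_lt_card_iff_nontrivial, hQ]
      exact Nat.one_lt_two_pow (by omega)
    refine ⟨A5 × (PP n × PUnit), inferInstance, inferInstance,
      prod_not_solvable _, prod_not_simple _, ?_⟩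
    rw [ie_eq, ncard_eq hQ _ (NNorm_PP n 0 _ hR)]
    · rw [Finset.card_image_of_injective _ (Nat.pow_right_injective (le_refl 2)), Nat.card_Icc]
      omega
    · intro m hm
      simp only [Finset.mem_image, Finset.mem_Icc] at hm
      obtain ⟨i, ⟨h1, h2⟩, rfl⟩ := hm
      simp only [SS, Finset.mem_union, Finset.mem_image, Finset.mem_Icc]
      exact Or.inl (Or.inl ⟨i, ⟨h1, by omega⟩, rfl⟩)

/-- The set of soluble group-theoretic numbers and the set of absolutely simple
group-theoretic numbers are both finite; each is contained in `{1, …, 18}`. -/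
theorem result :
    ({k : ℕ | 0 < k ∧ SolubleNumber k}.Finite ∧
      {k : ℕ | 0 < k ∧ AbsolutelySimpleNumber k}.Finite) ∧
    {k : ℕ | 0 < k ∧ SolubleNumber k} ⊆ Set.Icc 1 18 ∧
    {k : ℕ | 0 < k ∧ AbsolutelySimpleNumber k} ⊆ Set.Icc 1 18 := by
  have h1 : {k : ℕ | 0 < k ∧ SolubleNumber k} ⊆ Set.Icc 1 18 := by
    rintro k ⟨hk, hs⟩
    refine ⟨hk, ?_⟩
    by_contra hcon
    obtain ⟨G, _, _, h1, -, h3⟩ := exists_group k (by omega)
    exact h1 (hs G h3)
  have h2 : {k : ℕ | 0 < k ∧ AbsolutelySimpleNumber k} ⊆ Set.Icc 1 18 := by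
    rintro k ⟨hk, -, hs⟩
    refine ⟨hk, ?_⟩
    by_contra hcon
    obtain ⟨G, _, _, h1, h2, h3⟩ := exists_group k (by omega)
    exact hs G h1 h2 h3
  exact ⟨⟨(Set.finite_Icc 1 18).subset h1, (Set.finite_Icc 1 18).subset h2⟩, h1, h2⟩

end Pool.Agent.Results.MP_927db0_al.FiniteSets
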